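import Pool.Agent.Q94.MAD

open scoped InnerProductSpace ComplexOrder

namespace Pool.Agent.Results.MP_3feef6_an.FixedPoints

noncomputable section

universe u

variable {H : Type u} [NormedAddCommGroup H] [InnerProductSpace ℂ H] [CompleteSpace H]

/-- `T = V|T|` is the canonical polar decomposition: `V` is a partial isometry and
`ker V = ker T`. -/
def IsPolar (T V : H →L[ℂ] H) : Prop :=
  T = V * CFC.abs T ∧ V * star V * V = V ∧ ∀ x : H, V x = 0 ↔ T x = 0

theorem exists_polar (T : H →L[ℂ] H) : ∃ V, IsPolar T V := Q94.MA.exists_polar T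

/-- The partial isometry of the canonical polar decomposition. -/
def polarPart (T : H →L[ℂ] H) : H →L[ℂ] H := (exists_polar T).choose

/-- The Aluthge transform `|T|^{1/2} V |T|^{1/2}`. -/
def aluthge (T : H →L[ℂ] H) : H →L[ℂ] H :=
  CFC.sqrt (CFC.abs T) * polarPart T * CFC.sqrt (CFC.abs T)

/-- The mean transform `(V|T| + |T|V)/2`. -/
def mean (T : H →L[ℂ] H) : H →L[ℂ] H :=
  (1 / 2 : ℂ) • (polarPart T * CFC.abs T + CFC.abs T * polarPart T)

/-- The mean-Aluthge transform. -/
def meanAluthge (T : H →L[ℂ] H) : H →L[ℂ] H := mean (aluthge T)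

/-- `T` commutes with `T^* T`. -/
def QuasiNormal (T : H →L[ℂ] H) : Prop := T * (star T * T) = star T * T * T

theorem result :
    (∀ T : H →L[ℂ] H, IsPolar T (polarPart T) ∧ ∀ V, IsPolar T V → V = polarPart T) ∧
    ∀ T : H →L[ℂ] H, meanAluthge T = T ↔ QuasiNormal T := by
  have hP : ∀ T : H →L[ℂ] H, IsPolar T (polarPart T) := fun T => (exists_polar T).choose_spec
  refine ⟨fun T => ⟨hP T, fun V hV => Q94.MA.polar_unique T _ _ (hP T) hV⟩, fun T => ?_⟩
  constructor
  · intro h
    exact Q94.MA.quasi_of_fixed (hP T) rfl (hP (aluthge T)) h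
  · intro h
    have h1 : aluthge T = T := Q94.MA.aluthge_of_quasi (hP T) h
    have h2 := Q94.MA.abs_comm_of_quasi (hP T) h
    unfold meanAluthge
    rw [h1]
    unfold mean
    rw [h2.eq, ← (hP T).1, ← two_smul ℂ T, smul_smul]
    norm_num

end

end Pool.Agent.Results.MP_3feef6_an.FixedPoints
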